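import Mathlib

open Cardinal Set

universe u

namespace Pool.Agent.Results.MP_6967ea_co.AttainedOrSaturated

/-- An orientation of a simple graph. -/
structure Orientation {V : Type u} (G : SimpleGraph V) where
  arc : V → V → Prop
  adj_iff : ∀ u v, G.Adj u v ↔ (arc u v ∨ arc v u)
  asymm : ∀ u v, arc u v → ¬ arc v u

/-- The set `A` carries no closed directed walk. -/
def Acyclic {V : Type u} (r : V → V → Prop) (A : Set V) : Prop :=
  ∀ v, ¬ Relation.TransGen (fun a b => a ∈ A ∧ b ∈ A ∧ r a b) v v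

/-- The dichromatic number. -/
noncomputable def dichromatic {V : Type u} {G : SimpleGraph V} (D : Orientation G) :
    Cardinal.{u} :=
  sInf {c | ∃ (C : Type u) (f : V → C), #C = c ∧ ∀ x, Acyclic D.arc (f ⁻¹' {x})}

section
variable {V : Type u} {G : SimpleGraph V}

theorem tmono {r p : V → V → Prop} (h : ∀ a b, r a b → p a b) {a b : V}
    (hab : Relation.TransGen r a b) : Relation.TransGen p a b :=
  Relation.TransGen.mono (fun a b => h a b) a b hab

theorem Acyclic.mono {r : V → V → Prop} {A B : Set V} (h : A ⊆ B) (hB : Acyclic r B) :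
    Acyclic r A := by
  intro v hv
  exact hB v (tmono (fun a b hab => ⟨h hab.1, h hab.2.1, hab.2.2⟩) hv)

/-- `A` is covered by at most `c` acyclic sets. -/
def Col (D : Orientation G) (A : Set V) (c : Cardinal.{u}) : Prop :=
  ∃ P : c.out → Set V, A ⊆ ⋃ x, P x ∧ ∀ x, Acyclic D.arc (P x)

theorem col_iff {D : Orientation G} {A : Set V} {c : Cardinal.{u}} :
    Col D A c ↔ ∃ (C : Type u) (P : C → Set V), #C ≤ c ∧ A ⊆ ⋃ x, P x ∧
      ∀ x, Acyclic D.arc (P x) := by
  constructor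
  · rintro ⟨P, h1, h2⟩
    exact ⟨c.out, P, (mk_out c).le, h1, h2⟩
  · rintro ⟨C, P, hC, h1, h2⟩
    rw [← mk_out c, Cardinal.le_def] at hC
    obtain ⟨e⟩ := hC
    refine ⟨fun y => ⋃ x, {v | e x = y ∧ v ∈ P x}, ?_, ?_⟩
    · intro v hv
      obtain ⟨x, hx⟩ := mem_iUnion.1 (h1 hv)
      exact mem_iUnion.2 ⟨e x, mem_iUnion.2 ⟨x, rfl, hx⟩⟩
    · intro y
      by_cases hy : ∃ x, e x = y
      · obtain ⟨x, rfl⟩ := hy
        refine (h2 x).mono ?_
        intro v hv
        obtain ⟨x', hx', hv'⟩ := mem_iUnion.1 hv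
        have := e.injective hx'
        subst this
        exact hv'
      · intro v hv
        cases hv with
        | single h =>
          obtain ⟨x', hx', _⟩ := mem_iUnion.1 h.1
          exact hy ⟨x', hx'⟩
        | tail _ h =>
          obtain ⟨x', hx', _⟩ := mem_iUnion.1 h.1
          exact hy ⟨x', hx'⟩

theorem Col.mono_card {D : Orientation G} {A : Set V} {c d : Cardinal.{u}} (h : c ≤ d)
    (hc : Col D A c) : Col D A d := by
  rw [col_iff] at hc ⊢
  obtain ⟨C, P, h1, h2, h3⟩ := hc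
  exact ⟨C, P, h1.trans h, h2, h3⟩

theorem Col.mono_set {D : Orientation G} {A B : Set V} {c : Cardinal.{u}} (h : A ⊆ B)
    (hc : Col D B c) : Col D A c := by
  obtain ⟨P, h2, h3⟩ := hc
  exact ⟨P, h.trans h2, h3⟩

theorem col_iUnion {D : Orientation G} {ι : Type u} {A : ι → Set V} {c : Cardinal.{u}}
    (h : ∀ i, Col D (A i) c) : Col D (⋃ i, A i) (#ι * c) := by
  choose P h1 h2 using h
  rw [col_iff]
  refine ⟨ι × c.out, fun x => P x.1 x.2, ?_, ?_, ?_⟩
  · rw [mk_prod, lift_id, lift_id, mk_out]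
  · intro v hv
    obtain ⟨i, hi⟩ := mem_iUnion.1 hv
    obtain ⟨x, hx⟩ := mem_iUnion.1 (h1 i hi)
    exact mem_iUnion.2 ⟨(i, x), hx⟩
  · rintro ⟨i, x⟩
    exact h2 i x

theorem col_union {D : Orientation G} {A B : Set V} {c d : Cardinal.{u}}
    (hA : Col D A c) (hB : Col D B d) : Col D (A ∪ B) (c + d) := by
  obtain ⟨P, h1, h2⟩ := hA
  obtain ⟨Q, h3, h4⟩ := hB
  rw [col_iff]
  refine ⟨c.out ⊕ d.out, fun x => Sum.elim P Q x, ?_, ?_, ?_⟩
  · rw [mk_sum, lift_id, lift_id, mk_out, mk_out]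
  · rintro v (hv | hv)
    · obtain ⟨x, hx⟩ := mem_iUnion.1 (h1 hv)
      exact mem_iUnion.2 ⟨Sum.inl x, hx⟩
    · obtain ⟨x, hx⟩ := mem_iUnion.1 (h3 hv)
      exact mem_iUnion.2 ⟨Sum.inr x, hx⟩
  · rintro (x | x)
    · exact h2 x
    · exact h4 x

theorem col_of_acyclic {D : Orientation G} {A : Set V} (h : Acyclic D.arc A) : Col D A 1 := by
  rw [col_iff]
  exact ⟨PUnit, fun _ => A, by simp, fun v hv => mem_iUnion.2 ⟨⟨⟩, hv⟩, fun _ => h⟩

theorem acyclic_singleton (D : Orientation G) (w : V) : Acyclic D.arc {w} := by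
  have key : ∀ a b, Relation.TransGen (fun a b => a ∈ ({w} : Set V) ∧ b ∈ ({w} : Set V) ∧
      D.arc a b) a b → D.arc w w := by
    intro a b h
    induction h with
    | single h =>
      obtain ⟨h1, h2, h3⟩ := h
      rw [mem_singleton_iff] at h1 h2
      rwa [h1, h2] at h3
    | tail _ _ ih => exact ih
  intro v hv
  have := key v v hv
  exact D.asymm w w this this

/-- the colouring form and the covering form agree -/
theorem dichromatic_le_iff {D : Orientation G} {c : Cardinal.{u}} :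
    dichromatic D ≤ c ↔ Col D univ c := by
  constructor
  · intro h
    refine Col.mono_card h ?_
    have hne : {c | ∃ (C : Type u) (f : V → C), #C = c ∧
        ∀ x, Acyclic D.arc (f ⁻¹' {x})}.Nonempty :=
      ⟨#V, V, id, rfl, fun x => acyclic_singleton D x⟩
    obtain ⟨C, f, hC, hf⟩ := csInf_mem hne
    rw [col_iff]
    refine ⟨C, fun x => f ⁻¹' {x}, hC.le, ?_, hf⟩
    intro v _
    exact mem_iUnion.2 ⟨f v, rfl⟩
  · intro h
    rw [col_iff] at h
    obtain ⟨C, P, hC, h1, h2⟩ := h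
    have h1' : ∀ v, ∃ x, v ∈ P x := fun v => mem_iUnion.1 (h1 (mem_univ v))
    choose f hf using h1'
    refine le_trans (csInf_le' ?_) hC
    refine ⟨C, f, rfl, fun x => (h2 x).mono ?_⟩
    rintro v rfl
    exact hf v

/-- gluing along a map to a linear order -/
def glue {J : Type*} [LinearOrder J] (h : V → J) (D : J → Orientation G) : Orientation G where
  arc u v := G.Adj u v ∧ (h u < h v ∨ (h u = h v ∧ (D (h u)).arc u v))
  adj_iff u v := by
    constructor
    · intro huv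
      rcases lt_trichotomy (h u) (h v) with hlt | heq | hgt
      · exact Or.inl ⟨huv, Or.inl hlt⟩
      · rcases ((D (h u)).adj_iff u v).1 huv with h1 | h1
        · exact Or.inl ⟨huv, Or.inr ⟨heq, h1⟩⟩
        · exact Or.inr ⟨huv.symm, Or.inr ⟨heq.symm, heq ▸ h1⟩⟩
      · exact Or.inr ⟨huv.symm, Or.inl hgt⟩
    · rintro (h1 | h1)
      · exact h1.1
      · exact h1.1.symm
  asymm u v := by
    rintro ⟨_, h1 | ⟨h1, h2⟩⟩ ⟨_, h3 | ⟨h3, h4⟩⟩
    · exact lt_asymm h1 h3
    · exact h1.ne h3.symm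
    · exact h3.ne h1.symm
    · exact (D (h u)).asymm u v h2 (h1 ▸ h4)

theorem glue_col {J : Type*} [LinearOrder J] (h : V → J) (D : J → Orientation G) (A : Set V)
    (c : Cardinal.{u}) : Col (glue h D) A c ↔ ∀ j, Col (D j) (A ∩ h ⁻¹' {j}) c := by
  constructor
  · rintro ⟨P, h1, h2⟩ j
    refine ⟨fun x => P x ∩ h ⁻¹' {j}, ?_, ?_⟩
    · rintro v ⟨hv, hj⟩
      obtain ⟨x, hx⟩ := mem_iUnion.1 (h1 hv)
      exact mem_iUnion.2 ⟨x, hx, hj⟩
    · intro x v hv
      refine h2 x v (tmono ?_ hv)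
      rintro a b ⟨⟨ha, ha'⟩, ⟨hb, hb'⟩, hab⟩
      have ha2 : h a = j := ha'
      have hb2 : h b = j := hb'
      refine ⟨ha, hb, ((D j).adj_iff a b).2 (Or.inl hab), Or.inr ⟨ha2.trans hb2.symm, ?_⟩⟩
      rw [ha2]; exact hab
  · intro H
    choose P h1 h2 using H
    refine ⟨fun x => {v | v ∈ P (h v) x}, ?_, ?_⟩
    · intro v hv
      obtain ⟨x, hx⟩ := mem_iUnion.1 (h1 (h v) ⟨hv, rfl⟩)
      exact mem_iUnion.2 ⟨x, hx⟩
    · intro x v hv
      have key : ∀ a b, Relation.TransGen (fun a b => a ∈ {v | v ∈ P (h v) x} ∧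
          b ∈ {v | v ∈ P (h v) x} ∧ (glue h D).arc a b) a b → h a ≤ h b ∧
          (h a = h b → Relation.TransGen (fun c d => c ∈ P (h a) x ∧ d ∈ P (h a) x ∧
            (D (h a)).arc c d) a b) := by
        intro a b hab
        induction hab with
        | single hab =>
          rename_i b
          obtain ⟨ha, hb, _, h3 | ⟨h3, h4⟩⟩ := hab
          · exact ⟨h3.le, fun h5 => absurd h5 h3.ne⟩
          · refine ⟨h3.le, fun h5 => Relation.TransGen.single ⟨ha, ?_, h4⟩⟩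
            rw [h5]; exact hb
        | tail hab hbc ih =>
          rename_i b c
          obtain ⟨hb, hc, _, h3 | ⟨h3, h4⟩⟩ := hbc
          · exact ⟨ih.1.trans h3.le, fun h5 => absurd (ih.1.trans_lt h3) (by rw [h5]; exact lt_irrefl _)⟩
          · refine ⟨ih.1.trans h3.le, fun h5 => ?_⟩
            have h6 : h a = h b := h5.trans h3.symm
            refine (ih.2 h6).tail ⟨?_, ?_, ?_⟩
            · rw [h6]; exact hb
            · rw [h5]; exact hc
            · rw [h6]; exact h4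
      exact h2 (h v) x v ((key v v hv).2 rfl)

/-- an acyclic orientation -/
theorem exists_acyclic (G : SimpleGraph V) : ∃ D : Orientation G, Acyclic D.arc univ := by
  classical
  let : LinearOrder V := linearOrderOfSTO WellOrderingRel
  refine ⟨⟨fun u v => G.Adj u v ∧ u < v, ?_, ?_⟩, ?_⟩
  · intro u v
    constructor
    · intro huv
      rcases lt_trichotomy u v with h | h | h
      · exact Or.inl ⟨huv, h⟩
      · exact absurd h huv.ne
      · exact Or.inr ⟨huv.symm, h⟩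
    · rintro (h | h)
      · exact h.1
      · exact h.1.symm
  · rintro u v ⟨_, h1⟩ ⟨_, h2⟩
    exact lt_asymm h1 h2
  · intro v hv
    have key : ∀ a b, Relation.TransGen (fun a b => a ∈ (univ : Set V) ∧ b ∈ (univ : Set V) ∧
        G.Adj a b ∧ a < b) a b → a < b := by
      intro a b h
      induction h with
      | single h => exact h.2.2.2
      | tail _ h ih => exact ih.trans h.2.2.2
    exact lt_irrefl v (key v v hv)

/-- gluing a disjoint family -/
theorem exists_glue {ι : Type u} (A : ι → Set V) (hA : ∀ i j v, v ∈ A i → v ∈ A j → i = j)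
    (D : ι → Orientation G) :
    ∃ D' : Orientation G, (∀ (X : Set V) (c : Cardinal.{u}), Col D' X c →
      ∀ i, Col (D i) (X ∩ A i) c) ∧ (∀ (X : Set V) (c : Cardinal.{u}), 1 ≤ c →
      (∀ i, Col (D i) (X ∩ A i) c) → Col D' X c) := by
  classical
  obtain ⟨D₀, hD₀⟩ := exists_acyclic G
  let : LinearOrder (Option ι) := linearOrderOfSTO WellOrderingRel
  let h : V → Option ι := fun v => if hv : ∃ i, v ∈ A i then some hv.choose else none
  have h1 : ∀ i, h ⁻¹' {some i} = A i := by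
    intro i
    ext v
    constructor
    · intro hv
      have hv' : h v = some i := hv
      by_cases hv2 : ∃ i, v ∈ A i
      · simp only [h, hv2, dite_true, Option.some.injEq] at hv'
        rw [← hv']; exact hv2.choose_spec
      · simp only [h, hv2, dite_false] at hv'
        cases hv'
    · intro hv
      have hv2 : ∃ i, v ∈ A i := ⟨i, hv⟩
      change h v = some i
      simp only [h, hv2, dite_true, Option.some.injEq]
      exact hA _ _ v hv2.choose_spec hv
  refine ⟨glue h (fun j => j.elim D₀ D), fun X c H i => ?_, fun X c hc H => ?_⟩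
  · rw [glue_col] at H
    have := H (some i)
    rw [h1] at this
    exact this
  · rw [glue_col]
    intro j
    cases j with
    | none =>
      refine Col.mono_set (subset_univ _) (Col.mono_card hc (col_of_acyclic ?_))
      exact hD₀
    | some i =>
      rw [h1]
      exact H i

theorem exists_partition {D : Orientation G} {A : Set V} {c : Cardinal.{u}} (h : Col D A c) :
    ∃ P : c.out → Set V, A ⊆ ⋃ x, P x ∧ (∀ x, Acyclic D.arc (P x)) ∧
      ∀ x y v, v ∈ P x → v ∈ P y → x = y := by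
  classical
  obtain ⟨P, h1, h2⟩ := h
  refine ⟨fun x => {v | ∃ hv : ∃ y, v ∈ P y, hv.choose = x}, ?_, ?_, ?_⟩
  · intro v hv
    have hv' : ∃ y, v ∈ P y := mem_iUnion.1 (h1 hv)
    exact mem_iUnion.2 ⟨hv'.choose, hv', rfl⟩
  · intro x
    refine (h2 x).mono ?_
    rintro v ⟨hv, rfl⟩
    exact hv.choose_spec
  · rintro x y v ⟨hv, hx⟩ ⟨_, hy⟩
    exact hx.symm.trans hy

end

section
variable {V : Type u} (G : SimpleGraph V) (κ : Cardinal.{u})

/-- no orientation has dichromatic number exactly `κ` -/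
def NA : Prop := ∀ D : Orientation G, Col D univ κ → ∃ c < κ, Col D univ c

variable {G}

/-- every orientation which is `< κ` on `A` is `≤ c` on `A` -/
def S (G : SimpleGraph V) (κ : Cardinal.{u}) (A : Set V) (c : Cardinal.{u}) : Prop :=
  ∀ D : Orientation G, (∃ c' < κ, Col D A c') → Col D A c

def Sm (G : SimpleGraph V) (κ : Cardinal.{u}) (A : Set V) : Prop := ∃ c < κ, S G κ A c

variable {κ}

theorem S.mono_card {A : Set V} {c d : Cardinal.{u}} (h : c ≤ d) (hA : S G κ A c) :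
    S G κ A d := fun D hD => (hA D hD).mono_card h

theorem S.mono_set (hκ : ℵ₀ ≤ κ) {A B : Set V} {c : Cardinal.{u}} (h : B ⊆ A)
    (hA : S G κ A c) : S G κ B c := by
  rintro D ⟨c', hc', hD⟩
  obtain ⟨D', h1, h2⟩ := exists_glue (ι := PUnit.{u + 1}) (fun _ => B)
    (fun _ _ _ _ _ => rfl) (fun _ => D)
  have hBA : A ∩ B = B := inter_eq_right.2 h
  have h3 : Col D' A (max c' 1) := by
    refine h2 A _ (le_max_right _ _) fun _ => ?_
    rw [hBA]; exact hD.mono_card (le_max_left _ _)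
  have h4 := h1 A c (hA D' ⟨_, max_lt hc' (one_lt_aleph0.trans_le hκ), h3⟩) ⟨⟩
  rwa [hBA] at h4

theorem Sm.mono_set (hκ : ℵ₀ ≤ κ) {A B : Set V} (h : B ⊆ A) (hA : Sm G κ A) : Sm G κ B := by
  obtain ⟨c, hc, h1⟩ := hA
  exact ⟨c, hc, h1.mono_set hκ h⟩

/-- a disjoint family of small sets is uniformly small -/
theorem uniform (hκ : ℵ₀ ≤ κ) (hNA : NA G κ) {ι : Type u} (A : ι → Set V)
    (hA : ∀ i j v, v ∈ A i → v ∈ A j → i = j) (hsm : ∀ i, Sm G κ (A i)) :
    ∃ c < κ, ∀ i, S G κ (A i) c := by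
  classical
  by_contra hcon
  push Not at hcon
  let a : ι → Cardinal.{u} := fun i => sInf {c | S G κ (A i) c}
  have ha : ∀ i, S G κ (A i) (a i) := fun i => by
    obtain ⟨c, _, h⟩ := hsm i
    exact csInf_mem (s := {c | S G κ (A i) c}) ⟨c, h⟩
  have hlt : ∀ i c, c < a i → ¬ S G κ (A i) c := fun i c hc h =>
    (not_lt.2 (csInf_le' (s := {c | S G κ (A i) c}) h)) hc
  have haκ : ∀ i, a i < κ := fun i => by
    obtain ⟨c, hc, h⟩ := hsm i
    exact (csInf_le' (s := {c | S G κ (A i) c}) h).trans_lt hc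
  have hunb : ∀ c < κ, ∃ i, c < a i := by
    intro c hc
    obtain ⟨i, hi⟩ := hcon c hc
    refine ⟨i, ?_⟩
    by_contra hle
    exact hi ((ha i).mono_card (not_lt.1 hle))
  obtain ⟨D₀, hD₀⟩ := exists_acyclic G
  have hD : ∀ i, ∃ D : Orientation G, (∃ c' < κ, Col D (A i) c') ∧
      ∀ j, a j < a i → (∀ k, a k < a i → a k ≤ a j) → ¬ Col D (A i) (a j) := by
    intro i
    by_cases h : ∃ j, a j < a i ∧ (∀ k, a k < a i → a k ≤ a j)
    · obtain ⟨j, hj1, hj2⟩ := h
      have := hlt i (a j) hj1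
      unfold S at this
      push Not at this
      obtain ⟨D, h1, h2⟩ := this
      refine ⟨D, h1, fun j' hj1' hj2' => ?_⟩
      have : a j' = a j := le_antisymm (hj2 j' hj1') (hj2' j hj1)
      rw [this]; exact h2
    · refine ⟨D₀, ⟨1, one_lt_aleph0.trans_le hκ, ?_⟩, fun j hj1 hj2 => ?_⟩
      · exact Col.mono_set (subset_univ _) (col_of_acyclic hD₀)
      · exact absurd ⟨j, hj1, hj2⟩ h
  choose D hD1 hD2 using hD
  obtain ⟨D', h1, h2⟩ := exists_glue A hA D
  have h3 : Col D' univ κ := by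
    refine h2 univ κ (one_lt_aleph0.le.trans hκ) fun i => ?_
    obtain ⟨c', hc', h⟩ := hD1 i
    rw [univ_inter]
    exact h.mono_card hc'.le
  obtain ⟨c, hc, h4⟩ := hNA D' h3
  have h5 : ∀ i, Col (D i) (A i) c := fun i => by
    have := h1 univ c h4 i
    rwa [univ_inter] at this
  obtain ⟨j, hj⟩ := hunb c hc
  obtain ⟨i₀, hi₀⟩ := hunb (a j) (haκ j)
  have hne : {x : Cardinal.{u} | ∃ i, a i = x ∧ a j < x}.Nonempty := ⟨a i₀, i₀, rfl, hi₀⟩
  obtain ⟨i, hi1, hi2⟩ := csInf_mem hne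
  have hmin : ∀ k, a j < a k → a i ≤ a k := fun k hk => by
    rw [hi1]; exact csInf_le' ⟨k, rfl, hk⟩
  rw [← hi1] at hi2
  refine hD2 i j hi2 (fun k hk => ?_) ((h5 i).mono_card hj.le)
  by_contra hle
  exact absurd (hmin k (not_le.1 hle)) (not_le.2 hk)

/-- fewer than `κ` small sets have small union -/
theorem Sm.iUnion (hκ : ℵ₀ ≤ κ) (hNA : NA G κ) {ι : Type u} (hι : #ι < κ) (A : ι → Set V)
    (hsm : ∀ i, Sm G κ (A i)) : Sm G κ (⋃ i, A i) := by
  classical
  let A' : ι → Set V := fun i => {v | ∃ hv : ∃ j, v ∈ A j, hv.choose = i}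
  have hsub : ∀ i, A' i ⊆ A i := by
    rintro i v ⟨hv, rfl⟩
    exact hv.choose_spec
  obtain ⟨c, hc, h⟩ := uniform hκ hNA A' (by
    rintro x y v ⟨hv, hx⟩ ⟨_, hy⟩
    exact hx.symm.trans hy) (fun i => (hsm i).mono_set hκ (hsub i))
  have hU : (⋃ i, A' i) = ⋃ i, A i := by
    refine subset_antisymm (iUnion_mono hsub) ?_
    intro v hv
    have hv' : ∃ y, v ∈ A y := mem_iUnion.1 hv
    exact mem_iUnion.2 ⟨hv'.choose, hv', rfl⟩
  refine ⟨#ι * c, mul_lt_of_lt hκ hι hc, ?_⟩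
  rintro D ⟨c', hc', hD⟩
  rw [← hU] at hD ⊢
  exact col_iUnion fun i => h i D ⟨c', hc', hD.mono_set (subset_iUnion _ i)⟩

theorem no_large_family (hκ : ℵ₀ ≤ κ) (hNA : NA G κ) {ι : Type u} (c : ι → Cardinal.{u})
    (hc2 : ∀ b < κ, ∃ i, b ≤ c i) (hc1 : ∀ i, c i < κ) (A : ι → Set V)
    (hA : ∀ i j v, v ∈ A i → v ∈ A j → i = j) (hns : ∀ i, ¬ Sm G κ (A i)) : False := by
  have hD : ∀ i, ∃ D : Orientation G, (∃ c' < κ, Col D (A i) c') ∧ ¬ Col D (A i) (c i) := by
    intro i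
    by_contra hcon
    push Not at hcon
    exact hns i ⟨c i, hc1 i, fun D hD => hcon D hD⟩
  choose D hD1 hD2 using hD
  obtain ⟨D', h1, h2⟩ := exists_glue A hA D
  have h3 : Col D' univ κ := by
    refine h2 univ κ (one_lt_aleph0.le.trans hκ) fun i => ?_
    obtain ⟨c', hc', h⟩ := hD1 i
    rw [univ_inter]
    exact h.mono_card hc'.le
  obtain ⟨b, hb, h4⟩ := hNA D' h3
  obtain ⟨i, hi⟩ := hc2 b hb
  have := h1 univ b h4 i
  rw [univ_inter] at this
  exact hD2 i (this.mono_card hi)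

theorem singular_case (hκ : ℵ₀ ≤ κ) (hNA : NA G κ) {ι : Type u} (hι : #ι < κ)
    (c : ι → Cardinal.{u}) (hc2 : ∀ b < κ, ∃ i, b ≤ c i) (hc1 : ∀ i, c i < κ)
    (hns : ¬ Sm G κ (univ : Set V)) : False := by
  classical
  have hD : ∀ i, ∃ D : Orientation G, (∃ c' < κ, Col D univ c') ∧ ¬ Col D univ (c i) := by
    intro i
    by_contra hcon
    push Not at hcon
    exact hns ⟨c i, hc1 i, fun D hD => hcon D hD⟩
  choose D hD1 hD2 using hD
  choose d hd1 hd2 using hD1
  have hP := fun i => exists_partition (hd2 i)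
  choose P hP1 hP2 hP3 using hP
  have hN1 : ∀ i, Sm G κ (⋃ x : {x : (d i).out // Sm G κ (P i x)}, P i x.1) := by
    intro i
    refine Sm.iUnion hκ hNA ?_ _ fun x => x.2
    exact (mk_subtype_le _).trans_lt (by rw [mk_out]; exact hd1 i)
  obtain ⟨n, hn, hn2⟩ := Sm.iUnion hκ hNA hι _ hN1
  have hle : ∀ i, #{x : (d i).out // ¬ Sm G κ (P i x)} ≤ #ι := by
    intro i
    by_contra hlt
    obtain ⟨e⟩ := Cardinal.le_def _ _ |>.1 (not_le.1 hlt).le
    exact no_large_family hκ hNA c hc2 hc1 (fun j => P i (e j).1)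
      (fun j k v hj hk => e.injective (Subtype.ext (hP3 i _ _ v hj hk)))
      (fun j => (e j).2)
  have hcol : ∀ i, Col (D i) univ (n + #ι) := by
    intro i
    have hA : Col (D i) (⋃ i, ⋃ x : {x : (d i).out // Sm G κ (P i x)}, P i x.1) n :=
      hn2 (D i) ⟨d i, hd1 i, (hd2 i).mono_set (subset_univ _)⟩
    have hB : Col (D i) (⋃ x : {x : (d i).out // ¬ Sm G κ (P i x)}, P i x.1) #ι := by
      rw [col_iff]
      exact ⟨_, _, hle i, subset_rfl, fun x => hP2 i x.1⟩
    refine (col_union hA hB).mono_set ?_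
    intro v hv
    obtain ⟨x, hx⟩ := mem_iUnion.1 (hP1 i hv)
    by_cases h : Sm G κ (P i x)
    · exact Or.inl (mem_iUnion.2 ⟨i, mem_iUnion.2 ⟨⟨x, h⟩, hx⟩⟩)
    · exact Or.inr (mem_iUnion.2 ⟨⟨x, h⟩, hx⟩)
  obtain ⟨i, hi⟩ := hc2 (n + #ι) (add_lt_of_lt hκ hn hι)
  exact hD2 i ((hcol i).mono_card hi)

theorem omega_case (hκ : κ = ℵ₀) (hNA : NA G κ) (hns : ¬ Sm G κ (univ : Set V)) : False := by
  classical
  have hκ' : ℵ₀ ≤ κ := hκ.ge
  have step : ∀ (A : {A : Set V // ¬ Sm G κ A}) (n : ℕ), ∃ A' : {A : Set V // ¬ Sm G κ A},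
      A'.1 ⊆ A.1 ∧ ∃ D : Orientation G, (∃ c' < κ, Col D (A.1 \ A'.1) c') ∧
        ¬ Col D (A.1 \ A'.1) n := by
    rintro ⟨A, hA⟩ n
    have hn : ((n : Cardinal.{u}) + 1) < κ := by
      rw [hκ]; exact_mod_cast natCast_lt_aleph0 (n := n + 1)
    have : ¬ S G κ A ((n : Cardinal.{u}) + 1) := fun h => hA ⟨_, hn, h⟩
    unfold S at this
    push Not at this
    obtain ⟨D, ⟨c', hc', hD⟩, hD2⟩ := this
    have hD' := hD
    obtain ⟨P, hP1, hP2⟩ := hD'
    have hx : ∃ x, ¬ Sm G κ (A ∩ P x) := by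
      by_contra hcon
      push Not at hcon
      refine hA ((Sm.iUnion hκ' hNA (by rw [mk_out]; exact hc') _ hcon).mono_set hκ' ?_)
      intro v hv
      obtain ⟨x, hx⟩ := mem_iUnion.1 (hP1 hv)
      exact mem_iUnion.2 ⟨x, hv, hx⟩
    obtain ⟨x, hx⟩ := hx
    refine ⟨⟨A ∩ P x, hx⟩, inter_subset_left, D, ⟨c', hc', hD.mono_set sdiff_subset⟩, ?_⟩
    intro h
    refine hD2 ((col_union h (col_of_acyclic (hP2 x))).mono_set ?_)
    intro v hv
    by_cases hvx : v ∈ P x
    · exact Or.inr hvx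
    · exact Or.inl ⟨hv, fun h => hvx h.2⟩
  choose F hF1 D hD1 hD2 using step
  let T : ℕ → {A : Set V // ¬ Sm G κ A} := fun n =>
    Nat.rec ⟨univ, hns⟩ (fun n A => F A n) n
  have hT : ∀ n, T (n + 1) = F (T n) n := fun n => rfl
  have hTmono : ∀ m n, m ≤ n → (T n).1 ⊆ (T m).1 := by
    intro m n h
    induction h with
    | refl => exact subset_rfl
    | step _ ih => exact (hF1 _ _).trans ih
  have hdis : ∀ m n v, m < n → v ∈ (T m).1 \ (T (m + 1)).1 →
      v ∉ (T n).1 \ (T (n + 1)).1 := by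
    intro m n v hmn h1 h2
    exact h1.2 (hTmono (m + 1) n hmn h2.1)
  obtain ⟨D', h1, h2⟩ := exists_glue (ι := ULift.{u} ℕ)
    (fun n => (T n.down).1 \ (T (n.down + 1)).1) (by
      rintro ⟨m⟩ ⟨n⟩ v hm hn
      rcases lt_trichotomy m n with h | h | h
      · exact absurd hn (hdis m n v h hm)
      · rw [h]
      · exact absurd hm (hdis n m v h hn)) (fun n => D (T n.down) n.down)
  have h3 : Col D' univ κ := by
    refine h2 univ κ (one_lt_aleph0.le.trans hκ') fun i => ?_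
    obtain ⟨c', hc', h⟩ := hD1 (T i.down) i.down
    rw [univ_inter]
    exact h.mono_card hc'.le
  obtain ⟨b, hb, h4⟩ := hNA D' h3
  rw [hκ] at hb
  obtain ⟨k, rfl⟩ := lt_aleph0.1 hb
  have := h1 univ k h4 ⟨k⟩
  rw [univ_inter] at this
  exact hD2 (T k) k this

theorem exists_cofinal_family (hκ : κ.IsSingular) :
    ∃ (ι : Type u) (c : ι → Cardinal.{u}), #ι < κ ∧ (∀ b < κ, ∃ i, b ≤ c i) ∧
      ∀ i, c i < κ := by
  obtain ⟨ι, f, hf, hι⟩ := Ordinal.exists_lsub_cof κ.ord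
  refine ⟨ι, fun i => (f i).card, ?_, ?_, ?_⟩
  · rw [hι]; exact hκ.cof_ord_lt
  · intro b hb
    have hb' : b.ord < κ.ord := ord_lt_ord.2 hb
    rw [← hf] at hb'
    obtain ⟨i, hi⟩ := Ordinal.lt_lsub_iff.1 hb'
    exact ⟨i, by simpa using Ordinal.card_le_card hi⟩
  · intro i
    exact lt_ord.1 (hf ▸ Ordinal.lt_lsub f i)

end


section
variable {V : Type u} {G : SimpleGraph V} {κ : Cardinal.{u}}

theorem levels (κ : Cardinal.{u}) : (∀ i : κ.ord.ToType, #{j : κ.ord.ToType // j < i} < κ) ∧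
    ∀ c < κ, ∃ i : κ.ord.ToType, #{j : κ.ord.ToType // j < i} = c := by
  refine ⟨fun i => mk_Iio_toType_ord_lt i, fun c hc => ?_⟩
  have hlt : c.ord < Ordinal.type (α := κ.ord.ToType) (· < ·) := by
    rw [Ordinal.type_toType]; exact ord_lt_ord.2 hc
  refine ⟨Ordinal.enum (α := κ.ord.ToType) (· < ·) ⟨c.ord, hlt⟩, ?_⟩
  have h1 := Ordinal.card_typein (r := ((· < ·) : κ.ord.ToType → κ.ord.ToType → Prop))
    (Ordinal.enum (α := κ.ord.ToType) (· < ·) ⟨c.ord, hlt⟩)
  rw [Ordinal.typein_enum, card_ord] at h1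
  exact h1.symm

/-- all small sets are small with one common bound -/
theorem uniform_bound (hκ : ℵ₀ ≤ κ) (hNA : NA G κ) :
    ∃ c < κ, ∀ A : Set V, Sm G κ A → S G κ A c := by
  classical
  by_contra hcon
  push Not at hcon
  have hstep : ∀ (Z : Set V) (l : Cardinal.{u}), ∃ A : Set V, Sm G κ A ∧
      (Sm G κ Z → l < κ → ¬ S G κ (A \ Z) l) := by
    intro Z l
    by_cases h : Sm G κ Z ∧ l < κ
    · obtain ⟨⟨c, hc, hZ⟩, hl⟩ := h
      obtain ⟨A, hA1, hA2⟩ := hcon (l + c) (add_lt_of_lt hκ hl hc)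
      refine ⟨A, hA1, fun _ _ hS => hA2 ?_⟩
      rintro D ⟨c', hc', hD⟩
      have h1 : Col D (A \ Z) l := hS D ⟨c', hc', hD.mono_set sdiff_subset⟩
      have h2 : Col D (A ∩ Z) c :=
        (hZ.mono_set hκ inter_subset_right) D ⟨c', hc', hD.mono_set inter_subset_left⟩
      refine (col_union h1 h2).mono_set ?_
      intro v hv
      by_cases hz : v ∈ Z
      · exact Or.inr ⟨hv, hz⟩
      · exact Or.inl ⟨hv, hz⟩
    · refine ⟨∅, ⟨0, aleph0_pos.trans_le hκ, fun D _ => ?_⟩, fun h1 h2 => absurd ⟨h1, h2⟩ h⟩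
      rw [col_iff]
      exact ⟨PEmpty, fun _ => ∅, by simp, by simp, fun x => x.elim⟩
  choose F hF1 hF2 using hstep
  let ι : Type u := κ.ord.ToType
  let l : ι → Cardinal.{u} := fun i => #{j : ι // j < i}
  have hl : ∀ i, l i < κ := (levels κ).1
  let Y : ι → Set V := fun i => (wellFounded_lt (α := ι)).fix (fun i Y =>
    F (⋃ j : {j : ι // j < i}, Y j.1 j.2) (l i) \ ⋃ j : {j : ι // j < i}, Y j.1 j.2) i
  have hY : ∀ i, Y i = F (⋃ j : {j : ι // j < i}, Y j.1) (l i) \ ⋃ j : {j : ι // j < i}, Y j.1 := by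
    intro i
    exact (wellFounded_lt (α := ι)).fix_eq _ i
  have hYsm : ∀ i, Sm G κ (Y i) := fun i => by
    rw [hY]
    exact (hF1 _ _).mono_set hκ sdiff_subset
  have hYdis : ∀ i j, j < i → ∀ v, v ∈ Y i → v ∈ Y j → False := by
    intro i j hji v h1 h2
    rw [hY i] at h1
    exact h1.2 (mem_iUnion.2 ⟨⟨j, hji⟩, h2⟩)
  have hYbig : ∀ i, ¬ S G κ (Y i) (l i) := by
    intro i
    have hZ : Sm G κ (⋃ j : {j : ι // j < i}, Y j.1) :=
      Sm.iUnion hκ hNA (hl i) _ fun j => hYsm j.1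
    rw [hY i]
    exact hF2 _ _ hZ (hl i)
  obtain ⟨c, hc, h⟩ := uniform hκ hNA Y (by
    intro i j v hi hj
    rcases lt_trichotomy i j with h | h | h
    · exact (hYdis j i h v hj hi).elim
    · exact h
    · exact (hYdis i j h v hi hj).elim) hYsm
  have : ∃ i : ι, l i = c := (levels κ).2 c hc
  obtain ⟨i, rfl⟩ := this
  exact hYbig i (h i)

theorem many_positive (hκ : ℵ₀ ≤ κ) (hNA : NA G κ) {A : Set V} (hA : ¬ Sm G κ A)
    {l : Cardinal.{u}} (hl : l < κ) :
    ∃ B : l.out → Set V, (∀ x, B x ⊆ A) ∧ (∀ x y v, v ∈ B x → v ∈ B y → x = y) ∧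
      ∀ x, ¬ Sm G κ (B x) := by
  classical
  obtain ⟨μ, hμ, hμ2⟩ := uniform_bound hκ hNA
  have h1 : ¬ S G κ A (μ + l) := fun h => hA ⟨_, add_lt_of_lt hκ hμ hl, h⟩
  unfold S at h1
  push Not at h1
  obtain ⟨D, ⟨c', hc', hD⟩, hD2⟩ := h1
  obtain ⟨P, hP1, hP2, hP3⟩ := exists_partition hD
  have hN : Sm G κ (⋃ x : {x : c'.out // Sm G κ (A ∩ P x)}, A ∩ P x.1) :=
    Sm.iUnion hκ hNA ((mk_subtype_le _).trans_lt (by rw [mk_out]; exact hc')) _ fun x => x.2
  have hle : l ≤ #{x : c'.out // ¬ Sm G κ (A ∩ P x)} := by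
    by_contra hlt
    refine hD2 ?_
    have hB1 : Col D (⋃ x : {x : c'.out // Sm G κ (A ∩ P x)}, A ∩ P x.1) μ :=
      hμ2 _ hN D ⟨c', hc', hD.mono_set (iUnion_subset fun x => inter_subset_left)⟩
    have hB2 : Col D (⋃ x : {x : c'.out // ¬ Sm G κ (A ∩ P x)}, A ∩ P x.1) l := by
      rw [col_iff]
      exact ⟨_, _, (not_le.1 hlt).le, subset_rfl, fun x => (hP2 x.1).mono inter_subset_right⟩
    refine (col_union hB1 hB2).mono_set ?_
    intro v hv
    obtain ⟨x, hx⟩ := mem_iUnion.1 (hP1 hv)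
    by_cases h : Sm G κ (A ∩ P x)
    · exact Or.inl (mem_iUnion.2 ⟨⟨x, h⟩, hv, hx⟩)
    · exact Or.inr (mem_iUnion.2 ⟨⟨x, h⟩, hv, hx⟩)
  rw [← mk_out l, Cardinal.le_def] at hle
  obtain ⟨e⟩ := hle
  exact ⟨fun x => A ∩ P (e x).1, fun x => inter_subset_left,
    fun x y v hx hy => e.injective (Subtype.ext (hP3 _ _ v hx.2 hy.2)), fun x => (e x).2⟩

end

/-- `I` is a `κ`-complete, `κ`-saturated, nowhere less than `κ`-saturated proper ideal on `V`
containing the singletons. -/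
structure SaturatedIdeal {V : Type u} (κ : Cardinal.{u}) (I : Set (Set V)) : Prop where
  /-- downward closed -/
  mono : ∀ A B : Set V, A ⊆ B → B ∈ I → A ∈ I
  /-- unions of fewer than `κ` members are members -/
  complete : ∀ (ι : Type u) (A : ι → Set V), #ι < κ → (∀ i, A i ∈ I) → (⋃ i, A i) ∈ I
  /-- singletons are members -/
  singleton : ∀ v : V, {v} ∈ I
  /-- proper -/
  proper : (univ : Set V) ∉ I
  /-- there are no `κ` many pairwise disjoint positive sets -/
  saturated : ¬ ∃ (ι : Type u) (A : ι → Set V), #ι = κ ∧ (∀ i, A i ∉ I) ∧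
    ∀ i j, i ≠ j → Disjoint (A i) (A j)
  /-- for every `c < κ`, every positive set contains `c` many pairwise disjoint positive sets -/
  splits : ∀ c < κ, ∀ A : Set V, A ∉ I → ∃ (ι : Type u) (B : ι → Set V), #ι = c ∧
    (∀ i, B i ⊆ A) ∧ (∀ i, B i ∉ I) ∧ ∀ i j, i ≠ j → Disjoint (B i) (B j)

theorem result {V : Type u} (G : SimpleGraph V) (κ : Cardinal.{u}) (hκ : ℵ₀ ≤ κ)
    (hw : ¬ (ℵ₀ < κ ∧ κ.IsRegular ∧ Order.IsSuccLimit κ ∧
      ∃ I : Set (Set V), SaturatedIdeal κ I))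
    (𝒟 : Set (Orientation G)) (h𝒟 : IsLUB (dichromatic '' 𝒟) κ) :
    ∃ D : Orientation G, dichromatic D = κ := by
  by_contra hcon
  push Not at hcon
  have hNA : NA G κ := by
    intro D hD
    rw [← dichromatic_le_iff] at hD
    exact ⟨dichromatic D, lt_of_le_of_ne hD (hcon D), dichromatic_le_iff.1 le_rfl⟩
  have hns : ¬ Sm G κ (univ : Set V) := by
    rintro ⟨c, hc, hS⟩
    refine absurd (h𝒟.2 ?_) (not_le.2 hc)
    rintro _ ⟨D, hD, rfl⟩
    have h1 : dichromatic D ≤ κ := h𝒟.1 ⟨D, hD, rfl⟩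
    exact dichromatic_le_iff.2 (hS D ⟨dichromatic D, lt_of_le_of_ne h1 (hcon D),
      dichromatic_le_iff.1 le_rfl⟩)
  rcases hκ.eq_or_lt with h0 | h0
  · exact omega_case h0.symm hNA hns
  · by_cases hlim : Order.IsSuccLimit κ
    · by_cases hr : κ.IsRegular
      · refine hw ⟨h0, hr, hlim, {A | Sm G κ A}, ?_⟩
        refine ⟨fun A B h hB => hB.mono_set hκ h, fun ι A hι hA => Sm.iUnion hκ hNA hι A hA,
          fun v => ⟨1, one_lt_aleph0.trans_le hκ, fun D _ => col_of_acyclic ?_⟩, hns, ?_, ?_⟩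
        · exact acyclic_singleton D v
        · rintro ⟨ι, A, hι, hA, hdis⟩
          have hcard : #ι = #κ.ord.ToType := by rw [hι, mk_ord_toType]
          obtain ⟨e⟩ := Cardinal.eq.1 hcard
          refine no_large_family hκ hNA (fun i => #{j : κ.ord.ToType // j < e i}) ?_
            (fun i => (levels κ).1 _) A ?_ hA
          · intro b hb
            obtain ⟨i, hi⟩ := (levels κ).2 b hb
            refine ⟨e.symm i, ?_⟩
            rw [e.apply_symm_apply, hi]
          · intro i j v hi hj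
            by_contra hij
            exact Set.disjoint_left.1 (hdis i j hij) hi hj
        · intro c hc A hA
          obtain ⟨B, h1, h2, h3⟩ := many_positive hκ hNA hA hc
          refine ⟨c.out, B, mk_out c, h1, h3, ?_⟩
          intro i j hij
          rw [Set.disjoint_left]
          exact fun v hi hj => hij (h2 i j v hi hj)
      · have hsing : κ.IsSingular := IsSingular.of_not_isRegular hκ hr
        obtain ⟨ι, c, h1, h2, h3⟩ := exists_cofinal_family hsing
        exact singular_case hκ hNA h1 c h2 h3 hns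
    · have hne : κ ≠ 0 := (aleph0_pos.trans_le hκ).ne'
      have : ∃ b, b < κ ∧ ∀ c < κ, c ≤ b := by
        have hsp : ¬ Order.IsSuccPrelimit κ := fun h => hlim ⟨by
          intro hmin
          exact hne (isMin_iff_eq_bot.1 hmin), h⟩
        obtain ⟨b, hb⟩ := not_forall.1 hsp
        rw [not_not] at hb
        exact ⟨b, hb.1, fun c hc => not_lt.1 fun h => hb.2 h hc⟩
      obtain ⟨b, hb, hb2⟩ := this
      refine hns ⟨b, hb, ?_⟩
      rintro D ⟨c', hc', hD⟩
      exact hD.mono_card (hb2 c' hc')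

end Pool.Agent.Results.MP_6967ea_co.AttainedOrSaturated
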